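import Mathlib
import Pool.Agent.N119.PS.Stm3

set_option autoImplicit false

/-!
# Normalisation of Patterson-Sullivan currents
-/

namespace Pool.Agent.N946.PSC3.NRM

open Pool.Agent.H472R3 Pool.Agent.H67R3.FSR Pool.Agent.H67R4.SR MeasureTheory Topology Filter
open Pool.Agent.N119.PS
open scoped ENNReal NNReal

theorem smul_ps {N : ℕ} {A : FTree N} {μ : Current N} (h : IsPSCurrent A μ) (c : ℝ≥0) :
    IsPSCurrent A (c • μ) := by
  obtain ⟨ν, hν, c', x, hμ⟩ := h
  exact ⟨ν, hν, c * c', x, by rw [Current.smul_meas, hμ, smul_smul]⟩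

theorem pos {N : ℕ} (hN : 2 ≤ N) (h1 : S_BCL) (h2 : S_LOW) (h3 : S_CYL) (h4 : S_BND)
    {I : FTree N → Current N → ℝ} (hI : IsIntersectionForm I) {A : FTree N} (hA : A.InCV)
    {μ : Current N} (hne : μ.meas (U 1) ≠ 0) : 0 < I A μ := by
  obtain ⟨x⟩ := A.isRTree.nonempty
  obtain ⟨C, hC⟩ := h1 N A hA x
  obtain ⟨ε, c, hε, hlow⟩ := h2 N A hA x
  have hM : 0 < μ.meas.real (U 1) := by
    rw [measureReal_def]
    exact ENNReal.toReal_pos hne (μ.finite _ isCompact_U1).ne
  set M := μ.meas.real (U 1) with hMdef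
  have key : ∀ n : ℕ, (ε * n - c) * M ≤ 2 * n * I A μ + 2 * C * M := by
    intro n
    have hA1 : (ε * n - c) * M ≤ an A x μ n := by
      rw [hMdef, ← (h3 N).2.2 μ n, Finset.mul_sum]
      unfold an
      refine Finset.sum_le_sum fun g hg => ?_
      have hgn : g.norm = n := mem_sph.mp hg
      have := hlow g
      rw [hgn] at this
      rw [mul_comm]
      exact mul_le_mul_of_nonneg_left (by linarith) measureReal_nonneg
    exact hA1.trans ((h4 N hN I hI A hA x μ n).2 C hC)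
  by_contra hcon
  push Not at hcon
  obtain ⟨n, hn⟩ := exists_nat_gt ((c + 2 * C) / ε)
  have h5 : c + 2 * C < n * ε := (div_lt_iff₀ hε).mp hn
  have h6 := key n
  have h7 : 2 * (n : ℝ) * I A μ ≤ 0 := by
    have : (0 : ℝ) ≤ 2 * (n : ℝ) := by positivity
    exact mul_nonpos_of_nonneg_of_nonpos this hcon
  have h8 : 0 < (n * ε - (c + 2 * C)) * M := mul_pos (by linarith) hM
  nlinarith

theorem t (h1 : S_BCL) (h2 : S_LOW) (h3 : S_CYL) (h4 : S_BND) : S_NRM := by
  intro N hN I hI A hA μ hPS hne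
  have hpos := pos hN h1 h2 h3 h4 hI hA hne
  refine ⟨(1 / I A μ).toNNReal • μ, smul_ps hPS _, ?_⟩
  rw [hI.smul A hA, Real.coe_toNNReal _ (by positivity)]
  field_simp

end Pool.Agent.N946.PSC3.NRM
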